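import Mathlib

set_option autoImplicit false

/-!
# A Hadamard difference set design that does not embed as maximal arcs

For `b = 2` and the abelian group `G = ℤ/8 × ℤ/2` of order `16` the set
`M = {(0,0), (0,1), (1,0), (2,0), (5,1), (6,0)}` is a Hadamard difference set of order `4`
(parameters `(16, 6, 2)`), and `dev M` does not embed as a set of maximal arcs of degree `2`
into any projective plane of order `4`.

The proof: for a line `l` of the plane let `S = {g : φ g ∈ l}`.  Every translate of `M` meets `S`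
in `0` or `2` elements.  If `S` contains `(0,0)` and `(1,0)` this forces
`S = {(0,0), (1,0), (1,1), (4,0)}`, and if `S` contains `(0,0)` and `(5,0)` it forces
`S = {(0,0), (4,0), (5,0), (5,1)}`.  The two lines through `φ (0,0), φ (1,0)` and through
`φ (0,0), φ (5,0)` hence both contain `φ (0,0), φ (4,0)`, so they are equal, a contradiction.
-/

namespace Pool.Agent.Results.MP_82bed6_co.NonEmbeddableBiplane

open Configuration

universe u v w

/-- `M` is a Hadamard difference set of order `2^(2b-2)` in the abelian group `G` (written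
additively): `|M| = 2^(2b-1) - 2^(b-1)` and every nonzero `g` has exactly `2^(2b-2) - 2^(b-1)`
representations `g = m - m'` with `m, m' ∈ M`. (To be used for `|G| = 2^(2b)`.) -/
def IsHadamardDS (b : ℕ) {G : Type w} [AddCommGroup G] (M : Set G) : Prop :=
  M.ncard = 2 ^ (2 * b - 1) - 2 ^ (b - 1) ∧
    ∀ g : G, g ≠ 0 →
      {x : G × G | x.1 ∈ M ∧ x.2 ∈ M ∧ g = x.1 - x.2}.ncard = 2 ^ (2 * b - 2) - 2 ^ (b - 1)

/-- The point set `A` is a maximal arc of degree `d` in the plane with points `P` and lines `L`: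
every line meets `A` in `0` or in exactly `d` points. -/
def IsMaximalArc {P : Type u} (L : Type v) [Membership P L] (d : ℕ) (A : Set P) : Prop :=
  ∀ l : L, A ∩ {p | p ∈ l} = ∅ ∨ (A ∩ {p | p ∈ l}).ncard = d

/-- `dev M` embeds into the plane with points `P` and lines `L` as a set of maximal arcs of
degree `2^(b-1)`: there is an injective map `φ` from `G` to the points such that `φ (M + g)` is a
maximal arc of degree `2^(b-1)` for every `g ∈ G`. -/
def DevEmbeds (b : ℕ) {G : Type w} [AddCommGroup G] (M : Set G) (P : Type u) (L : Type v)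
    [Membership P L] : Prop :=
  ∃ φ : G → P, Function.Injective φ ∧
    ∀ g : G, IsMaximalArc L (2 ^ (b - 1)) (φ '' ((fun m => m + g) '' M))

/-- The group `ℤ/8 × ℤ/2`. -/
abbrev G : Type := ZMod 8 × ZMod 2

/-- The difference set, as a finset. -/
def M₀ : Finset G := {(0, 0), (0, 1), (1, 0), (2, 0), (5, 1), (6, 0)}

/-- The number of elements of `M₀ + g` with `s`. -/
def cnt (s : G → Bool) (g : G) : ℕ :=
  (s ((0, 0) + g)).toNat + (s ((0, 1) + g)).toNat + (s ((1, 0) + g)).toNat +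
    (s ((2, 0) + g)).toNat + (s ((5, 1) + g)).toNat + (s ((6, 0) + g)).toNat

theorem card_filter_eq (s : G → Bool) (g : G) :
    (M₀.filter (fun m => s (m + g) = true)).card = cnt s g := by
  have h : ∀ b : Bool, (if b = true then 1 else 0 : ℕ) = b.toNat := by decide
  rw [Finset.card_filter]
  simp only [h]
  rw [M₀, Finset.sum_insert (by decide), Finset.sum_insert (by decide),
    Finset.sum_insert (by decide), Finset.sum_insert (by decide), Finset.sum_insert (by decide),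
    Finset.sum_singleton]
  simp only [cnt]
  ring

theorem key1 (s : G → Bool) (h : ∀ g, cnt s g = 0 ∨ cnt s g = 2) (h0 : s (0, 0) = true)
    (h2 : s (1, 0) = true) : s (4, 0) = true ∧ s (5, 0) = false := by
  have b0 : (s (0, 0)).toNat ≤ 1 := Bool.toNat_le _
  have b1 : (s (0, 1)).toNat ≤ 1 := Bool.toNat_le _
  have b2 : (s (1, 0)).toNat ≤ 1 := Bool.toNat_le _
  have b3 : (s (1, 1)).toNat ≤ 1 := Bool.toNat_le _
  have b4 : (s (2, 0)).toNat ≤ 1 := Bool.toNat_le _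
  have b5 : (s (2, 1)).toNat ≤ 1 := Bool.toNat_le _
  have b6 : (s (3, 0)).toNat ≤ 1 := Bool.toNat_le _
  have b7 : (s (3, 1)).toNat ≤ 1 := Bool.toNat_le _
  have b8 : (s (4, 0)).toNat ≤ 1 := Bool.toNat_le _
  have b9 : (s (4, 1)).toNat ≤ 1 := Bool.toNat_le _
  have b10 : (s (5, 0)).toNat ≤ 1 := Bool.toNat_le _
  have b11 : (s (5, 1)).toNat ≤ 1 := Bool.toNat_le _
  have b12 : (s (6, 0)).toNat ≤ 1 := Bool.toNat_le _
  have b13 : (s (6, 1)).toNat ≤ 1 := Bool.toNat_le _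
  have b14 : (s (7, 0)).toNat ≤ 1 := Bool.toNat_le _
  have b15 : (s (7, 1)).toNat ≤ 1 := Bool.toNat_le _
  have n0 : (s (0, 0)).toNat = 1 := by rw [h0]; rfl
  have n2 : (s (1, 0)).toNat = 1 := by rw [h2]; rfl
  have e0 : (s (0, 0)).toNat + (s (0, 1)).toNat + (s (1, 0)).toNat + (s (2, 0)).toNat + (s (5, 1)).toNat + (s (6, 0)).toNat = 0 ∨
      (s (0, 0)).toNat + (s (0, 1)).toNat + (s (1, 0)).toNat + (s (2, 0)).toNat + (s (5, 1)).toNat + (s (6, 0)).toNat = 2 := h (0, 0)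
  have e14 : (s (7, 0)).toNat + (s (7, 1)).toNat + (s (0, 0)).toNat + (s (1, 0)).toNat + (s (4, 1)).toNat + (s (5, 0)).toNat = 0 ∨
      (s (7, 0)).toNat + (s (7, 1)).toNat + (s (0, 0)).toNat + (s (1, 0)).toNat + (s (4, 1)).toNat + (s (5, 0)).toNat = 2 := h (7, 0)
  have e1 : (s (0, 1)).toNat + (s (0, 0)).toNat + (s (1, 1)).toNat + (s (2, 1)).toNat + (s (5, 0)).toNat + (s (6, 1)).toNat = 0 ∨
      (s (0, 1)).toNat + (s (0, 0)).toNat + (s (1, 1)).toNat + (s (2, 1)).toNat + (s (5, 0)).toNat + (s (6, 1)).toNat = 2 := h (0, 1)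
  have e4 : (s (2, 0)).toNat + (s (2, 1)).toNat + (s (3, 0)).toNat + (s (4, 0)).toNat + (s (7, 1)).toNat + (s (0, 0)).toNat = 0 ∨
      (s (2, 0)).toNat + (s (2, 1)).toNat + (s (3, 0)).toNat + (s (4, 0)).toNat + (s (7, 1)).toNat + (s (0, 0)).toNat = 2 := h (2, 0)
  have e7 : (s (3, 1)).toNat + (s (3, 0)).toNat + (s (4, 1)).toNat + (s (5, 1)).toNat + (s (0, 0)).toNat + (s (1, 1)).toNat = 0 ∨
      (s (3, 1)).toNat + (s (3, 0)).toNat + (s (4, 1)).toNat + (s (5, 1)).toNat + (s (0, 0)).toNat + (s (1, 1)).toNat = 2 := h (3, 1)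
  have e12 : (s (6, 0)).toNat + (s (6, 1)).toNat + (s (7, 0)).toNat + (s (0, 0)).toNat + (s (3, 1)).toNat + (s (4, 0)).toNat = 0 ∨
      (s (6, 0)).toNat + (s (6, 1)).toNat + (s (7, 0)).toNat + (s (0, 0)).toNat + (s (3, 1)).toNat + (s (4, 0)).toNat = 2 := h (6, 0)
  have e2 : (s (1, 0)).toNat + (s (1, 1)).toNat + (s (2, 0)).toNat + (s (3, 0)).toNat + (s (6, 1)).toNat + (s (7, 0)).toNat = 0 ∨
      (s (1, 0)).toNat + (s (1, 1)).toNat + (s (2, 0)).toNat + (s (3, 0)).toNat + (s (6, 1)).toNat + (s (7, 0)).toNat = 2 := h (1, 0)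
  have e3 : (s (1, 1)).toNat + (s (1, 0)).toNat + (s (2, 1)).toNat + (s (3, 1)).toNat + (s (6, 0)).toNat + (s (7, 1)).toNat = 0 ∨
      (s (1, 1)).toNat + (s (1, 0)).toNat + (s (2, 1)).toNat + (s (3, 1)).toNat + (s (6, 0)).toNat + (s (7, 1)).toNat = 2 := h (1, 1)
  have e6 : (s (3, 0)).toNat + (s (3, 1)).toNat + (s (4, 0)).toNat + (s (5, 0)).toNat + (s (0, 1)).toNat + (s (1, 0)).toNat = 0 ∨
      (s (3, 0)).toNat + (s (3, 1)).toNat + (s (4, 0)).toNat + (s (5, 0)).toNat + (s (0, 1)).toNat + (s (1, 0)).toNat = 2 := h (3, 0)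
  have e9 : (s (4, 1)).toNat + (s (4, 0)).toNat + (s (5, 1)).toNat + (s (6, 1)).toNat + (s (1, 0)).toNat + (s (2, 1)).toNat = 0 ∨
      (s (4, 1)).toNat + (s (4, 0)).toNat + (s (5, 1)).toNat + (s (6, 1)).toNat + (s (1, 0)).toNat + (s (2, 1)).toNat = 2 := h (4, 1)
  have r1 : (s (4, 0)).toNat = 1 := by omega
  have r2 : (s (5, 0)).toNat = 0 := by omega
  refine ⟨?_, ?_⟩
  · cases hs : s (4, 0)
    · rw [hs] at r1; simp at r1
    · rfl
  · cases hs : s (5, 0)
    · rfl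
    · rw [hs] at r2; simp at r2

theorem key2 (s : G → Bool) (h : ∀ g, cnt s g = 0 ∨ cnt s g = 2) (h0 : s (0, 0) = true)
    (h2 : s (5, 0) = true) : s (4, 0) = true := by
  have b0 : (s (0, 0)).toNat ≤ 1 := Bool.toNat_le _
  have b1 : (s (0, 1)).toNat ≤ 1 := Bool.toNat_le _
  have b2 : (s (1, 0)).toNat ≤ 1 := Bool.toNat_le _
  have b3 : (s (1, 1)).toNat ≤ 1 := Bool.toNat_le _
  have b4 : (s (2, 0)).toNat ≤ 1 := Bool.toNat_le _
  have b5 : (s (2, 1)).toNat ≤ 1 := Bool.toNat_le _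
  have b6 : (s (3, 0)).toNat ≤ 1 := Bool.toNat_le _
  have b7 : (s (3, 1)).toNat ≤ 1 := Bool.toNat_le _
  have b8 : (s (4, 0)).toNat ≤ 1 := Bool.toNat_le _
  have b9 : (s (4, 1)).toNat ≤ 1 := Bool.toNat_le _
  have b10 : (s (5, 0)).toNat ≤ 1 := Bool.toNat_le _
  have b11 : (s (5, 1)).toNat ≤ 1 := Bool.toNat_le _
  have b12 : (s (6, 0)).toNat ≤ 1 := Bool.toNat_le _
  have b13 : (s (6, 1)).toNat ≤ 1 := Bool.toNat_le _
  have b14 : (s (7, 0)).toNat ≤ 1 := Bool.toNat_le _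
  have b15 : (s (7, 1)).toNat ≤ 1 := Bool.toNat_le _
  have n0 : (s (0, 0)).toNat = 1 := by rw [h0]; rfl
  have n2 : (s (5, 0)).toNat = 1 := by rw [h2]; rfl
  have e1 : (s (0, 1)).toNat + (s (0, 0)).toNat + (s (1, 1)).toNat + (s (2, 1)).toNat + (s (5, 0)).toNat + (s (6, 1)).toNat = 0 ∨
      (s (0, 1)).toNat + (s (0, 0)).toNat + (s (1, 1)).toNat + (s (2, 1)).toNat + (s (5, 0)).toNat + (s (6, 1)).toNat = 2 := h (0, 1)
  have e14 : (s (7, 0)).toNat + (s (7, 1)).toNat + (s (0, 0)).toNat + (s (1, 0)).toNat + (s (4, 1)).toNat + (s (5, 0)).toNat = 0 ∨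
      (s (7, 0)).toNat + (s (7, 1)).toNat + (s (0, 0)).toNat + (s (1, 0)).toNat + (s (4, 1)).toNat + (s (5, 0)).toNat = 2 := h (7, 0)
  have e0 : (s (0, 0)).toNat + (s (0, 1)).toNat + (s (1, 0)).toNat + (s (2, 0)).toNat + (s (5, 1)).toNat + (s (6, 0)).toNat = 0 ∨
      (s (0, 0)).toNat + (s (0, 1)).toNat + (s (1, 0)).toNat + (s (2, 0)).toNat + (s (5, 1)).toNat + (s (6, 0)).toNat = 2 := h (0, 0)
  have e4 : (s (2, 0)).toNat + (s (2, 1)).toNat + (s (3, 0)).toNat + (s (4, 0)).toNat + (s (7, 1)).toNat + (s (0, 0)).toNat = 0 ∨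
      (s (2, 0)).toNat + (s (2, 1)).toNat + (s (3, 0)).toNat + (s (4, 0)).toNat + (s (7, 1)).toNat + (s (0, 0)).toNat = 2 := h (2, 0)
  have e7 : (s (3, 1)).toNat + (s (3, 0)).toNat + (s (4, 1)).toNat + (s (5, 1)).toNat + (s (0, 0)).toNat + (s (1, 1)).toNat = 0 ∨
      (s (3, 1)).toNat + (s (3, 0)).toNat + (s (4, 1)).toNat + (s (5, 1)).toNat + (s (0, 0)).toNat + (s (1, 1)).toNat = 2 := h (3, 1)
  have e12 : (s (6, 0)).toNat + (s (6, 1)).toNat + (s (7, 0)).toNat + (s (0, 0)).toNat + (s (3, 1)).toNat + (s (4, 0)).toNat = 0 ∨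
      (s (6, 0)).toNat + (s (6, 1)).toNat + (s (7, 0)).toNat + (s (0, 0)).toNat + (s (3, 1)).toNat + (s (4, 0)).toNat = 2 := h (6, 0)
  have e6 : (s (3, 0)).toNat + (s (3, 1)).toNat + (s (4, 0)).toNat + (s (5, 0)).toNat + (s (0, 1)).toNat + (s (1, 0)).toNat = 0 ∨
      (s (3, 0)).toNat + (s (3, 1)).toNat + (s (4, 0)).toNat + (s (5, 0)).toNat + (s (0, 1)).toNat + (s (1, 0)).toNat = 2 := h (3, 0)
  have e8 : (s (4, 0)).toNat + (s (4, 1)).toNat + (s (5, 0)).toNat + (s (6, 0)).toNat + (s (1, 1)).toNat + (s (2, 0)).toNat = 0 ∨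
      (s (4, 0)).toNat + (s (4, 1)).toNat + (s (5, 0)).toNat + (s (6, 0)).toNat + (s (1, 1)).toNat + (s (2, 0)).toNat = 2 := h (4, 0)
  have e10 : (s (5, 0)).toNat + (s (5, 1)).toNat + (s (6, 0)).toNat + (s (7, 0)).toNat + (s (2, 1)).toNat + (s (3, 0)).toNat = 0 ∨
      (s (5, 0)).toNat + (s (5, 1)).toNat + (s (6, 0)).toNat + (s (7, 0)).toNat + (s (2, 1)).toNat + (s (3, 0)).toNat = 2 := h (5, 0)
  have e11 : (s (5, 1)).toNat + (s (5, 0)).toNat + (s (6, 1)).toNat + (s (7, 1)).toNat + (s (2, 0)).toNat + (s (3, 1)).toNat = 0 ∨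
      (s (5, 1)).toNat + (s (5, 0)).toNat + (s (6, 1)).toNat + (s (7, 1)).toNat + (s (2, 0)).toNat + (s (3, 1)).toNat = 2 := h (5, 1)
  have r1 : (s (4, 0)).toNat = 1 := by omega
  cases hs : s (4, 0)
  · rw [hs] at r1; simp at r1
  · rfl

/-- The difference set `M = {(0,0), (0,1), (1,0), (2,0), (5,1), (6,0)}` in `ℤ/8 × ℤ/2`. -/
def M : Set G := {(0, 0), (0, 1), (1, 0), (2, 0), (5, 1), (6, 0)}

theorem M_eq : M = (M₀ : Set G) := by
  simp [M, M₀]

theorem isHadamardDS_M : IsHadamardDS 2 M := by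
  rw [M_eq]
  refine ⟨?_, ?_⟩
  · rw [Set.ncard_coe_finset]; decide
  · intro g hg
    have : {x : G × G | x.1 ∈ (M₀ : Set G) ∧ x.2 ∈ (M₀ : Set G) ∧ g = x.1 - x.2} =
        (((M₀ ×ˢ M₀).filter (fun x => g = x.1 - x.2) : Finset (G × G)) : Set (G × G)) := by
      ext x
      simp [and_assoc]
    rw [this, Set.ncard_coe_finset]
    clear this
    revert g
    decide +kernel

/-- For `b = 2` and `G = ℤ/8 × ℤ/2` there is a Hadamard difference set `M` in `G` whose
development does not embed as a set of maximal arcs into any projective plane of order `4`. -/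
theorem result :
    Nat.card (ZMod 8 × ZMod 2) = 2 ^ (2 * 2) ∧
    ∃ M : Set (ZMod 8 × ZMod 2), IsHadamardDS 2 M ∧
      ∀ (P : Type u) (L : Type v) [Membership P L] [ProjectivePlane P L] [Finite P] [Finite L],
        ProjectivePlane.order P L = 2 ^ 2 → ¬ DevEmbeds 2 M P L := by
  refine ⟨by simp, M, isHadamardDS_M, ?_⟩
  intro P L _ _ _ _ _ ⟨φ, hφ, harc⟩
  classical
  -- the trace of a line on `G`
  have main : ∀ l : L, ∀ g, cnt (fun x => decide (φ x ∈ l)) g = 0 ∨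
      cnt (fun x => decide (φ x ∈ l)) g = 2 := by
    intro l g
    rw [← card_filter_eq]
    have himg : (φ '' ((fun m => m + g) '' M)) ∩ {p | p ∈ l} =
        (fun m => φ (m + g)) '' ((M₀.filter (fun m => decide (φ (m + g) ∈ l) = true) :
          Finset G) : Set G) := by
      ext p
      rw [M_eq]
      constructor
      · rintro ⟨⟨_, ⟨m, hm, rfl⟩, rfl⟩, hp⟩
        exact ⟨m, by simpa using ⟨hm, hp⟩, rfl⟩
      · rintro ⟨m, hm, rfl⟩
        have hm' : m ∈ M₀ ∧ φ (m + g) ∈ l := by simpa using hm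
        exact ⟨⟨m + g, ⟨m, hm'.1, rfl⟩, rfl⟩, hm'.2⟩
    have hinj : Function.Injective (fun m => φ (m + g)) := fun a b hab => by
      have := hφ hab
      exact add_right_cancel this
    have hcard : ((φ '' ((fun m => m + g) '' M)) ∩ {p | p ∈ l}).ncard =
        (M₀.filter (fun m => decide (φ (m + g) ∈ l) = true)).card := by
      rw [himg, Set.ncard_image_of_injective _ hinj, Set.ncard_coe_finset]
    rcases harc g l with h | h
    · left
      rw [← hcard, h, Set.ncard_empty]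
    · right
      rw [← hcard, h]
      norm_num
  have hne1 : φ (0, 0) ≠ φ (1, 0) := fun h => absurd (hφ h) (by decide)
  have hne2 : φ (0, 0) ≠ φ (5, 0) := fun h => absurd (hφ h) (by decide)
  have hne3 : φ (0, 0) ≠ φ (4, 0) := fun h => absurd (hφ h) (by decide)
  obtain ⟨h1, h1'⟩ := HasLines.mkLine_ax (L := L) hne1
  obtain ⟨h2, h2'⟩ := HasLines.mkLine_ax (L := L) hne2
  set l₁ : L := HasLines.mkLine hne1
  set l₂ : L := HasLines.mkLine hne2
  have k1 := key1 _ (main l₁) (by simpa using h1) (by simpa using h1')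
  have k2 := key2 _ (main l₂) (by simpa using h2) (by simpa using h2')
  have a1 : φ (4, 0) ∈ l₁ := by simpa using k1.1
  have a2 : φ (5, 0) ∉ l₁ := by simpa using k1.2
  have a3 : φ (4, 0) ∈ l₂ := by simpa using k2
  have heq : l₁ = l₂ := (Nondegenerate.eq_or_eq h1 a1 h2 a3).resolve_left hne3
  exact a2 (heq ▸ h2')

end Pool.Agent.Results.MP_82bed6_co.NonEmbeddableBiplane
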